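import Mathlib

set_option autoImplicit false

/-!
Definitions for MP_fbca0c_an (atomic block Hardy spaces for martingales, `0 < p < 1`).

A filtered probability space is a probability measure `μ` on `(Ω, mΩ)` together with a monotone
sequence `ℱ 0 ≤ ℱ 1 ≤ ...` of sub-sigma-algebras with `⨆ k, ℱ k = mΩ`; the index is shifted by one,
so `ℱ k` is the sigma-algebra `Σ_{k+1}` of the problem.  All functions are complex valued.
-/

namespace Pool.Agent.LibFbca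

open MeasureTheory Filter
open scoped ENNReal Topology

variable {Ω : Type*} {mΩ : MeasurableSpace Ω}

/-- `(Ω, mΩ, μ, ℱ)` is a filtered probability space (index shifted by one). -/
structure IsFilteredProbSpace (μ : Measure Ω) (ℱ : ℕ → MeasurableSpace Ω) : Prop where
  prob : IsProbabilityMeasure μ
  mono : Monotone ℱ
  gen : ⨆ k, ℱ k = mΩ

/-- Martingale differences: `mdiff μ ℱ f 0 = E_1 f` and `mdiff μ ℱ f k = E_{k+1} f - E_k f`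
for `k ≥ 1` (in the indexing of the problem), i.e. `mdiff μ ℱ f k` is `df_{k+1}`. -/
noncomputable def mdiff (μ : Measure Ω) (ℱ : ℕ → MeasurableSpace Ω) (f : Ω → ℂ) : ℕ → Ω → ℂ
  | 0 => μ[f | ℱ 0]
  | k + 1 => fun ω => (μ[f | ℱ (k + 1)]) ω - (μ[f | ℱ k]) ω

/-- Square function `(∑ |df_k|^2)^{1/2}`. -/
noncomputable def sqFun (μ : Measure Ω) (ℱ : ℕ → MeasurableSpace Ω) (f : Ω → ℂ) (ω : Ω) : ℝ≥0∞ :=
  (∑' k, ‖mdiff μ ℱ f k ω‖ₑ ^ 2) ^ (1 / 2 : ℝ)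

/-- The quasi-norm of `f` in the martingale Hardy space `H_p`: the `L_p` quasi-norm of the square
function. -/
noncomputable def hpNorm (μ : Measure Ω) (ℱ : ℕ → MeasurableSpace Ω) (p : ℝ) (f : Ω → ℂ) : ℝ≥0∞ :=
  (∫⁻ ω, (sqFun μ ℱ f ω) ^ p ∂μ) ^ (1 / p)

/-- `F 0 + F 1 + F 2 + ...` converges to `f` in `L_p(Ω)`. -/
def SumsInLp (μ : Measure Ω) (p : ℝ) (F : ℕ → Ω → ℂ) (f : Ω → ℂ) : Prop :=
  Tendsto (fun n => eLpNorm (fun ω => f ω - ∑ i ∈ Finset.range n, F i ω) (ENNReal.ofReal p) μ)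
    atTop (𝓝 0)

/-- `a` is an admissible subatom of an atomic block of level `k`: it is supported in a set
`A ∈ Σ_l`, `l ≥ k`, and `‖a‖_q ≤ μ(A)^{1-1/p-1/q'} / (l-k+1)`, where `q' = q/(q-1)`. -/
def IsSubatom (μ : Measure Ω) (ℱ : ℕ → MeasurableSpace Ω) (p q : ℝ) (k : ℕ) (a : Ω → ℂ) : Prop :=
  AEStronglyMeasurable a μ ∧ ∃ l, k ≤ l ∧ ∃ A : Set Ω, MeasurableSet[ℱ l] A ∧
    (∀ᵐ ω ∂μ, ω ∉ A → a ω = 0) ∧
    eLpNorm a (ENNReal.ofReal q) μ ≤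
      (μ A) ^ (1 - 1 / p - 1 / (q / (q - 1))) * ((l - k + 1 : ℕ) : ℝ≥0∞)⁻¹

/-- `b = ∑ λ_j a_j` (in `L_p`) is a representation of `b` as an atomic block of level `k`. -/
def IsBlockRep (μ : Measure Ω) (ℱ : ℕ → MeasurableSpace Ω) (p q : ℝ) (b : Ω → ℂ) (k : ℕ)
    (lam : ℕ → ℂ) (a : ℕ → Ω → ℂ) : Prop :=
  μ[b | ℱ k] =ᵐ[μ] 0 ∧ (∀ j, IsSubatom μ ℱ p q k (a j)) ∧
    SumsInLp μ p (fun j ω => lam j * a j ω) b

/-- `b` is a `(p,q)`-atomic block. -/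
def IsBlock (μ : Measure Ω) (ℱ : ℕ → MeasurableSpace Ω) (p q : ℝ) (b : Ω → ℂ) : Prop :=
  Integrable b μ ∧ (AEStronglyMeasurable[ℱ 0] b μ ∨ ∃ k lam a, IsBlockRep μ ℱ p q b k lam a)

open Classical in
/-- The size `|b|` of an atomic block with the coefficients measured in `ℓ_r`: `‖b‖_p` if `b` is
`Σ_1`-measurable, and otherwise the infimum of `(∑ |λ_j|^r)^{1/r}` over all representations.
The definition in the problem is the case `r = 1`. -/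
noncomputable def blockSize (μ : Measure Ω) (ℱ : ℕ → MeasurableSpace Ω) (p q r : ℝ)
    (b : Ω → ℂ) : ℝ≥0∞ :=
  if AEStronglyMeasurable[ℱ 0] b μ then eLpNorm b (ENNReal.ofReal p) μ else
    ⨅ (k : ℕ) (lam : ℕ → ℂ) (a : ℕ → Ω → ℂ) (_ : IsBlockRep μ ℱ p q b k lam a),
      (∑' j, ‖lam j‖ₑ ^ r) ^ (1 / r)

/-- The atomic block quasi-norm `inf (∑ |b_i|^p)^{1/p}` over all representations `f = ∑ b_i` (in
`L_p`) by atomic blocks (`r = 1` in the problem). -/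
noncomputable def atbNorm (μ : Measure Ω) (ℱ : ℕ → MeasurableSpace Ω) (p q r : ℝ)
    (f : Ω → ℂ) : ℝ≥0∞ :=
  ⨅ (b : ℕ → Ω → ℂ) (_ : (∀ i, IsBlock μ ℱ p q (b i)) ∧ SumsInLp μ p b f),
    (∑' i, (blockSize μ ℱ p q r (b i)) ^ p) ^ (1 / p)

/-- The norm of the Lipschitz class `Λ_{p,q}`. -/
noncomputable def lipNorm (μ : Measure Ω) (ℱ : ℕ → MeasurableSpace Ω) (p q : ℝ)
    (g : Ω → ℂ) : ℝ≥0∞ :=
  ⨆ (k : ℕ) (A : Set Ω) (_ : MeasurableSet[ℱ k] A ∧ μ A ≠ 0),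
    (μ A) ^ (1 - 1 / p) *
      (((μ A)⁻¹ * ∫⁻ ω in A, ‖g ω - (μ[g | ℱ k]) ω‖ₑ ^ q ∂μ) ^ (1 / q) +
        eLpNorm (mdiff μ ℱ g k) ∞ μ)

/-- The smaller, localised norm, in which `‖dg_k‖_∞` is replaced by `‖1_A dg_k‖_∞`. -/
noncomputable def lipNormLoc (μ : Measure Ω) (ℱ : ℕ → MeasurableSpace Ω) (p q : ℝ)
    (g : Ω → ℂ) : ℝ≥0∞ :=
  ⨆ (k : ℕ) (A : Set Ω) (_ : MeasurableSet[ℱ k] A ∧ μ A ≠ 0),
    (μ A) ^ (1 - 1 / p) *
      (((μ A)⁻¹ * ∫⁻ ω in A, ‖g ω - (μ[g | ℱ k]) ω‖ₑ ^ q ∂μ) ^ (1 / q) +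
        eLpNorm (mdiff μ ℱ g k) ∞ (μ.restrict A))

/-- The dyadic filtration of the line: `dyadicFil k` is generated by the dyadic intervals
`[j 2^{-k}, (j+1) 2^{-k})`, `j ∈ ℤ`. -/
@[reducible] noncomputable def dyadicFil (k : ℕ) : MeasurableSpace ℝ :=
  MeasurableSpace.comap (fun x : ℝ => ⌊(2 : ℝ) ^ k * x⌋) ⊤

/-- Lebesgue measure on `[0,1)`. -/
noncomputable def leb01 : Measure ℝ := (volume : Measure ℝ).restrict (Set.Ico 0 1)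

end Pool.Agent.LibFbca
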