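import Mathlib
import Pool.Agent.Lib_MP_fbca0c_an.Defs

set_option autoImplicit false

namespace Pool.Agent.LibFbca

open MeasureTheory Filter
open scoped ENNReal Topology

theorem fl_meas (k : ℕ) : Measurable (fun x : ℝ => ⌊(2 : ℝ) ^ k * x⌋) :=
  (measurable_const.mul measurable_id).floor

theorem dyadicFil_le (k : ℕ) : dyadicFil k ≤ (inferInstance : MeasurableSpace ℝ) := by
  have h := fl_meas k
  rw [measurable_iff_comap_le] at h
  exact h

theorem dyadicFil_succ (k : ℕ) : dyadicFil k ≤ dyadicFil (k + 1) := by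
  rintro s ⟨t, -, rfl⟩
  refine ⟨(fun z : ℤ => z / 2) ⁻¹' t, trivial, ?_⟩
  ext x
  simp only [Set.mem_preimage]
  have h : ⌊(2 : ℝ) ^ (k + 1) * x⌋ / 2 = ⌊(2 : ℝ) ^ k * x⌋ := by
    have h1 := Int.floor_div_natCast ((2 : ℝ) ^ (k + 1) * x) 2
    rw [show (2 : ℝ) ^ (k + 1) * x / ((2 : ℕ) : ℝ) = (2 : ℝ) ^ k * x by push_cast; ring] at h1
    rw [h1]
    norm_num
  rw [h]

theorem dyadicFil_mono : Monotone dyadicFil := monotone_nat_of_le_succ dyadicFil_succ

theorem dyadicFil_gen : ⨆ k, dyadicFil k = (inferInstance : MeasurableSpace ℝ) := by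
  apply le_antisymm
  · exact iSup_le dyadicFil_le
  · have hmeas : @Measurable ℝ ℝ (⨆ k, dyadicFil k) _ (fun x => x) := by
      have h1 : ∀ k : ℕ, @Measurable ℝ ℝ (⨆ k, dyadicFil k) _
          (fun x : ℝ => (⌊(2 : ℝ) ^ k * x⌋ : ℝ) / 2 ^ k) := by
        intro k
        have h2 : @Measurable ℝ ℤ (⨆ k, dyadicFil k) ⊤ (fun x : ℝ => ⌊(2 : ℝ) ^ k * x⌋) := by
          rw [measurable_iff_comap_le]
          exact le_iSup dyadicFil k
        have h3 : @Measurable ℤ ℝ ⊤ _ (fun z : ℤ => (z : ℝ) / 2 ^ k) := fun _ _ => trivial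
        exact h3.comp h2
      refine @measurable_of_tendsto_metrizable ℝ ℝ (⨆ k, dyadicFil k) _ _ _ _ _ _ h1 ?_
      rw [tendsto_pi_nhds]
      intro x
      rw [tendsto_iff_dist_tendsto_zero]
      refine squeeze_zero (fun _ => dist_nonneg) (g := fun k : ℕ => ((1 : ℝ) / 2) ^ k) ?_
        (tendsto_pow_atTop_nhds_zero_of_lt_one (by norm_num) (by norm_num))
      intro k
      rw [Real.dist_eq, abs_le]
      have hp : (0 : ℝ) < 2 ^ k := by positivity
      have h2 := Int.floor_le ((2 : ℝ) ^ k * x)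
      have h3 := Int.lt_floor_add_one ((2 : ℝ) ^ k * x)
      have e : ((1 : ℝ) / 2) ^ k = 1 / 2 ^ k := by rw [div_pow, one_pow]
      rw [e]
      constructor
      · rw [neg_le_sub_iff_le_add, ← add_div, le_div_iff₀ hp]
        linarith
      · rw [sub_le_iff_le_add, div_le_iff₀ hp]
        have : (1 / (2 : ℝ) ^ k + x) * 2 ^ k = 1 + 2 ^ k * x := by field_simp
        rw [this]
        linarith
    intro s hs
    have := hmeas hs
    exact this

instance leb01_prob : IsProbabilityMeasure leb01 := by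
  constructor
  rw [leb01, Measure.restrict_apply_univ, Real.volume_Ico]
  norm_num

theorem dyadic_space : IsFilteredProbSpace leb01 dyadicFil :=
  ⟨leb01_prob, dyadicFil_mono, dyadicFil_gen⟩

end Pool.Agent.LibFbca
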