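import Mathlib
import Pool.Agent.Lib_MP_fbca0c_an.Defs

set_option autoImplicit false

namespace Pool.Agent.LibFbca

open MeasureTheory Filter Set
open scoped ENNReal Topology

/-- The geometric probability measure on `ℕ`: the point `j` has mass `2^{-(j+1)}`. -/
noncomputable def geoMeas : Measure ℕ :=
  Measure.sum fun j => ((2 : ℝ≥0∞)⁻¹ ^ (j + 1)) • Measure.dirac j

/-- The filtration `Σ_1 = {∅, ℕ}`, `Σ_k =` all subsets of `ℕ` for `k ≥ 2`. -/
@[reducible] def geoFil : ℕ → MeasurableSpace ℕ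
  | 0 => ⊥
  | _ + 1 => ⊤

theorem geo_singleton (j : ℕ) : geoMeas {j} = (2 : ℝ≥0∞)⁻¹ ^ (j + 1) := by
  unfold geoMeas
  rw [Measure.sum_apply _ (measurableSet_singleton j), tsum_eq_single j]
  · simp
  · intro i hi
    simp [hi]

theorem geo_singleton_ne (j : ℕ) : geoMeas {j} ≠ 0 := by
  rw [geo_singleton]
  exact pow_ne_zero _ (by simp)

instance geo_prob : IsProbabilityMeasure geoMeas := by
  constructor
  unfold geoMeas
  rw [Measure.sum_apply _ MeasurableSet.univ]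
  simp only [Measure.smul_apply, measure_univ, smul_eq_mul, mul_one]
  rw [ENNReal.tsum_geometric_add_one, ENNReal.one_sub_inv_two, inv_inv]
  exact ENNReal.inv_mul_cancel (by norm_num) (by norm_num)

theorem geoFil_mono : Monotone geoFil := by
  refine monotone_nat_of_le_succ fun k => ?_
  cases k
  · exact bot_le
  · exact le_rfl

theorem geo_space : IsFilteredProbSpace geoMeas geoFil := by
  refine ⟨geo_prob, geoFil_mono, ?_⟩
  apply le_antisymm
  · exact iSup_le fun k => le_top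
  · exact le_iSup geoFil 1

theorem geo_ae (P : ℕ → Prop) : (∀ᵐ x ∂geoMeas, P x) ↔ ∀ x, P x := by
  rw [ae_iff_of_countable]
  exact ⟨fun h x => h x (geo_singleton_ne x), fun h x _ => h x⟩

theorem geo_E0 (f : ℕ → ℂ) : geoMeas[f | geoFil 0] = fun _ => ∫ x, f x ∂geoMeas := condExp_bot f

theorem geo_E1 (f : ℕ → ℂ) (hf : Integrable f geoMeas) (k : ℕ) :
    geoMeas[f | geoFil (k + 1)] = f :=
  condExp_of_stronglyMeasurable le_rfl StronglyMeasurable.of_discrete hf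

theorem geo_d0 (f : ℕ → ℂ) (x : ℕ) : mdiff geoMeas geoFil f 0 x = ∫ x, f x ∂geoMeas := by
  unfold mdiff; rw [geo_E0]

theorem geo_d1 (f : ℕ → ℂ) (hf : Integrable f geoMeas) (x : ℕ) :
    mdiff geoMeas geoFil f 1 x = f x - ∫ x, f x ∂geoMeas := by
  change (geoMeas[f | geoFil (0 + 1)]) x - (geoMeas[f | geoFil 0]) x = _
  rw [geo_E0, geo_E1 f hf]

/-- evaluation at the atom `0` of mass `1/2` -/
noncomputable def evalZero : Lp ℂ ∞ geoMeas →ₗ[ℂ] ℂ where
  toFun f := (f : ℕ → ℂ) 0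
  map_add' f g := by
    have h := (geo_ae _).mp (Lp.coeFn_add f g) 0
    rw [h, Pi.add_apply]
  map_smul' c f := by
    have h := (geo_ae _).mp (Lp.coeFn_smul c f) 0
    rw [h, Pi.smul_apply, RingHom.id_apply]

theorem sq_ge (f : ℕ → ℂ) (k x : ℕ) :
    ‖mdiff geoMeas geoFil f k x‖ₑ ≤ sqFun geoMeas geoFil f x := by
  unfold sqFun
  calc ‖mdiff geoMeas geoFil f k x‖ₑ
      = (‖mdiff geoMeas geoFil f k x‖ₑ ^ 2) ^ (1 / 2 : ℝ) := by
        rw [← ENNReal.rpow_natCast, ← ENNReal.rpow_mul]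
        norm_num
    _ ≤ _ := by
        refine ENNReal.rpow_le_rpow ?_ (by norm_num)
        exact ENNReal.le_tsum k

theorem sq_zero_ge (f : ℕ → ℂ) (hf : Integrable f geoMeas) :
    ‖f 0‖ₑ ≤ 2 * sqFun geoMeas geoFil f 0 := by
  have h0 := sq_ge f 0 0
  have h1 := sq_ge f 1 0
  rw [geo_d0] at h0
  rw [geo_d1 f hf] at h1
  calc ‖f 0‖ₑ = ‖(f 0 - ∫ x, f x ∂geoMeas) + ∫ x, f x ∂geoMeas‖ₑ := by rw [sub_add_cancel]
    _ ≤ ‖f 0 - ∫ x, f x ∂geoMeas‖ₑ + ‖∫ x, f x ∂geoMeas‖ₑ := enorm_add_le _ _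
    _ ≤ _ := by rw [two_mul]; exact add_le_add h1 h0

theorem hp_ge (f : ℕ → ℂ) (p : ℝ) (hp : 0 < p) :
    sqFun geoMeas geoFil f 0 ≤ (2 : ℝ≥0∞) ^ (1 / p) * hpNorm geoMeas geoFil p f := by
  unfold hpNorm
  have h1 : (sqFun geoMeas geoFil f 0) ^ p * (2 : ℝ≥0∞)⁻¹ ≤
      ∫⁻ x, (sqFun geoMeas geoFil f x) ^ p ∂geoMeas := by
    calc (sqFun geoMeas geoFil f 0) ^ p * (2 : ℝ≥0∞)⁻¹
        = ∫⁻ x in {0}, (sqFun geoMeas geoFil f x) ^ p ∂geoMeas := by
          rw [lintegral_singleton, geo_singleton]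
          simp
      _ ≤ _ := setLIntegral_le_lintegral _ _
  have h2 : (sqFun geoMeas geoFil f 0) ^ p ≤
      2 * ∫⁻ x, (sqFun geoMeas geoFil f x) ^ p ∂geoMeas := by
    calc (sqFun geoMeas geoFil f 0) ^ p
        = 2 * ((sqFun geoMeas geoFil f 0) ^ p * (2 : ℝ≥0∞)⁻¹) := by
          rw [mul_comm, mul_assoc, ENNReal.inv_mul_cancel (by norm_num) (by norm_num), mul_one]
      _ ≤ _ := by gcongr
  calc sqFun geoMeas geoFil f 0 = ((sqFun geoMeas geoFil f 0) ^ p) ^ (1 / p) := by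
        rw [← ENNReal.rpow_mul, mul_one_div_cancel hp.ne', ENNReal.rpow_one]
    _ ≤ (2 * ∫⁻ x, (sqFun geoMeas geoFil f x) ^ p ∂geoMeas) ^ (1 / p) :=
        ENNReal.rpow_le_rpow h2 (by positivity)
    _ = _ := ENNReal.mul_rpow_of_nonneg _ _ (by positivity)

theorem eval_bound (p : ℝ) (hp : 0 < p) (f : Lp ℂ ∞ geoMeas) :
    ‖evalZero f‖ₑ ≤ (2 * (2 : ℝ≥0∞) ^ (1 / p)) * hpNorm geoMeas geoFil p f := by
  have hint : Integrable (f : ℕ → ℂ) geoMeas := (Lp.memLp f).integrable le_top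
  calc ‖evalZero f‖ₑ = ‖(f : ℕ → ℂ) 0‖ₑ := rfl
    _ ≤ 2 * sqFun geoMeas geoFil f 0 := sq_zero_ge _ hint
    _ ≤ 2 * ((2 : ℝ≥0∞) ^ (1 / p) * hpNorm geoMeas geoFil p f) := by
        gcongr
        exact hp_ge _ p hp
    _ = _ := by rw [mul_assoc]

theorem rep_g (g : ℕ → ℂ) (hL : ∀ f : Lp ℂ ∞ geoMeas, evalZero f = ∫ x, f x * g x ∂geoMeas) :
    ∀ j, g j = if j = 0 then 2 else 0 := by
  intro j
  have hmem : MemLp (({j} : Set ℕ).indicator (fun _ => (1 : ℂ))) ∞ geoMeas :=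
    memLp_indicator_const _ (measurableSet_singleton j) _ (Or.inr (measure_ne_top _ _))
  have h := hL (hmem.toLp _)
  have hco := (geo_ae _).mp (hmem.coeFn_toLp)
  have h1 : evalZero (hmem.toLp _) = ({j} : Set ℕ).indicator (fun _ => (1 : ℂ)) 0 := hco 0
  have h2 : ∫ x, (hmem.toLp _ : ℕ → ℂ) x * g x ∂geoMeas = (geoMeas {j}).toReal * g j := by
    have e : (fun x => (hmem.toLp _ : ℕ → ℂ) x * g x) =
        ({j} : Set ℕ).indicator (fun _ => g j) := by
      funext x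
      rw [hco x]
      by_cases hx : x = j
      · subst hx; simp
      · simp [hx]
    rw [e, integral_indicator (measurableSet_singleton j), setIntegral_const, Measure.real]
    simp
  rw [h1, h2, geo_singleton] at h
  have e3 : (((2 : ℝ≥0∞)⁻¹ ^ (j + 1)).toReal : ℂ) ≠ 0 := by
    have : (((2 : ℝ≥0∞)⁻¹ ^ (j + 1)).toReal) = ((2 : ℝ)⁻¹) ^ (j + 1) := by simp
    rw [this]
    have h' : ((2 : ℝ)⁻¹) ^ (j + 1) ≠ 0 := by positivity
    exact_mod_cast h'
  by_cases hj : j = 0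
  · subst hj
    rw [if_pos rfl]
    simp at h
    have h' : (2 : ℂ) * 1 = 2 * (2⁻¹ * g 0) := by rw [← h]
    rw [← mul_assoc] at h'
    norm_num at h'
    exact h'.symm
  · rw [if_neg hj]
    have h0 : ({j} : Set ℕ).indicator (fun _ => (1 : ℂ)) 0 = 0 :=
      indicator_of_notMem (by simpa using Ne.symm hj) _
    rw [h0] at h
    rcases mul_eq_zero.mp h.symm with h4 | h4
    · exact absurd h4 e3
    · exact h4

theorem g_int (g : ℕ → ℂ) (hg : ∀ j, g j = if j = 0 then 2 else 0) :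
    ∫ x, g x ∂geoMeas = 1 := by
  have e : g = ({0} : Set ℕ).indicator (fun _ => (2 : ℂ)) := by
    funext x
    rw [hg x]
    by_cases hx : x = 0
    · subst hx; simp
    · simp [hx]
  rw [e, integral_indicator (measurableSet_singleton 0), setIntegral_const, Measure.real,
    geo_singleton]
  simp

theorem loc_top (p q : ℝ) (hp : 0 < p) (hp1 : p < 1) (g : ℕ → ℂ) (hgi : Integrable g geoMeas)
    (hg : ∀ j, g j = if j = 0 then 2 else 0) : lipNormLoc geoMeas geoFil p q g = ∞ := by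
  have hs : 0 < 1 / p - 1 := by
    have : 1 < 1 / p := by rw [lt_div_iff₀ hp]; linarith
    linarith
  have key : ∀ j : ℕ, 1 ≤ j → (geoMeas {j}) ^ (1 - 1 / p) ≤ lipNormLoc geoMeas geoFil p q g := by
    intro j hj
    have hms : MeasurableSet[geoFil 1] ({j} : Set ℕ) := trivial
    have h1 : (1 : ℝ≥0∞) ≤ eLpNorm (mdiff geoMeas geoFil g 1) ∞ (geoMeas.restrict {j}) := by
      rw [eLpNorm_exponent_top, eLpNormEssSup]
      have hr : geoMeas.restrict {j} ≠ 0 := by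
        intro h
        have := geo_singleton_ne j
        rw [Measure.restrict_eq_zero] at h
        exact this h
      have : ∀ᵐ x ∂(geoMeas.restrict {j}), (1 : ℝ≥0∞) ≤ ‖mdiff geoMeas geoFil g 1 x‖ₑ := by
        filter_upwards [ae_restrict_mem (measurableSet_singleton j)] with x hx
        rw [mem_singleton_iff] at hx
        subst hx
        rw [geo_d1 g hgi, g_int g hg, hg, if_neg (by omega)]
        simp
      calc (1 : ℝ≥0∞) = essSup (fun _ => (1 : ℝ≥0∞)) (geoMeas.restrict {j}) := by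
            rw [essSup_const _ hr]
        _ ≤ _ := essSup_mono_ae this
    unfold lipNormLoc
    refine le_iSup_of_le 1 (le_iSup_of_le {j} (le_iSup_of_le ⟨hms, geo_singleton_ne j⟩ ?_))
    calc (geoMeas {j}) ^ (1 - 1 / p) = (geoMeas {j}) ^ (1 - 1 / p) * 1 := (mul_one _).symm
      _ ≤ _ := by
        gcongr
        exact h1.trans le_add_self
  refine ENNReal.eq_top_of_forall_nnreal_le fun C => ?_
  have h2 : ∀ j : ℕ, (geoMeas {j}) ^ (1 - 1 / p) = (((2 : ℝ≥0∞) ^ (1 / p - 1)) ^ (j + 1)) := by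
    intro j
    rw [geo_singleton, ← ENNReal.rpow_natCast, ← ENNReal.rpow_mul, ENNReal.inv_rpow,
      ← ENNReal.rpow_neg, ← ENNReal.rpow_natCast, ← ENNReal.rpow_mul]
    congr 1
    ring
  have h3 : (1 : ℝ≥0∞) < (2 : ℝ≥0∞) ^ (1 / p - 1) := ENNReal.one_lt_rpow (by norm_num) hs
  have h4 : Tendsto (fun j : ℕ => ((2 : ℝ≥0∞) ^ (1 / p - 1)) ^ j) atTop (𝓝 ∞) :=
    ENNReal.tendsto_pow_atTop_nhds_top_iff.mpr h3
  have h5 := (tendsto_add_atTop_iff_nat 1).mpr h4
  have h6 := (h5.eventually (lt_mem_nhds (ENNReal.coe_lt_top (r := C)))).and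
    (eventually_ge_atTop 1)
  obtain ⟨j, hj, hj1⟩ := h6.exists
  refine le_trans hj.le ?_
  rw [← h2 j]
  exact key j hj1

theorem loc_le (p q : ℝ) (g : ℕ → ℂ) :
    lipNormLoc geoMeas geoFil p q g ≤ lipNorm geoMeas geoFil p q g := by
  unfold lipNormLoc lipNorm
  refine iSup_mono fun k => iSup_mono fun A => iSup_mono fun _ => ?_
  gcongr
  exact Measure.restrict_le_self

end Pool.Agent.LibFbca
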