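import Mathlib
import Pool.Agent.Lib_MP_fbca0c_an.Dyadic

set_option autoImplicit false

namespace Pool.Agent.LibFbca

open MeasureTheory Filter Set
open scoped ENNReal Topology

theorem setInt_ind (m : ℕ) (U : Set ℝ) (hU : MeasurableSet U) (hU1 : U ⊆ Ico 0 1) (c : ℤ)
    (hc : ∀ x ∈ U, ⌊(2 : ℝ) ^ m * x⌋ = c) (T : Set ℤ) [Decidable (c ∈ T)] :
    ∫ x in (fun x : ℝ => ⌊(2 : ℝ) ^ m * x⌋) ⁻¹' T, U.indicator (fun _ => (1 : ℂ)) x ∂leb01 =
      if c ∈ T then (((volume U).toReal : ℝ) : ℂ) else 0 := by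
  rw [setIntegral_indicator hU]
  have h1 : (leb01 U) = volume U := by
    rw [leb01, Measure.restrict_apply hU, inter_eq_left.mpr hU1]
  split_ifs with h
  · have h2 : (fun x : ℝ => ⌊(2 : ℝ) ^ m * x⌋) ⁻¹' T ∩ U = U := by
      rw [inter_eq_right]
      intro x hx
      simp only [mem_preimage, hc x hx, h]
    rw [h2, setIntegral_const, Measure.real, h1]
    simp
  · have h2 : (fun x : ℝ => ⌊(2 : ℝ) ^ m * x⌋) ⁻¹' T ∩ U = ∅ := by
      ext x
      simp only [mem_inter_iff, mem_preimage, mem_empty_iff_false, iff_false, not_and]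
      intro hx hxU
      rw [hc x hxU] at hx
      exact h hx
    rw [h2]
    simp

/-- left dyadic interval of length `2^{-n}` -/
def AL (n : ℕ) : Set ℝ := Ico 0 ((1 / 2 : ℝ) ^ n)

/-- right dyadic interval of length `2^{-n}` -/
def AR (n : ℕ) : Set ℝ := Ico (1 - (1 / 2 : ℝ) ^ n) 1

theorem AL_meas (n : ℕ) : MeasurableSet (AL n) := measurableSet_Ico
theorem AR_meas (n : ℕ) : MeasurableSet (AR n) := measurableSet_Ico

theorem half_pow_le (n : ℕ) : ((1 / 2 : ℝ)) ^ n ≤ 1 := pow_le_one₀ (by norm_num) (by norm_num)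

theorem AL_sub (n : ℕ) : AL n ⊆ Ico 0 1 := by
  intro x hx
  exact ⟨hx.1, lt_of_lt_of_le hx.2 (half_pow_le n)⟩

theorem AR_sub (n : ℕ) : AR n ⊆ Ico 0 1 := by
  intro x hx
  refine ⟨?_, hx.2⟩
  have := half_pow_le n
  have := hx.1
  linarith

theorem AL_floor (n : ℕ) : AL n = (fun x : ℝ => ⌊(2 : ℝ) ^ n * x⌋) ⁻¹' {0} := by
  ext x
  simp only [AL, mem_Ico, mem_preimage, mem_singleton_iff, Int.floor_eq_zero_iff]
  have hp : (0 : ℝ) < 2 ^ n := by positivity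
  constructor
  · rintro ⟨h1, h2⟩
    refine ⟨by positivity, ?_⟩
    calc (2 : ℝ) ^ n * x < 2 ^ n * (1 / 2) ^ n := by gcongr
      _ = 1 := by rw [← mul_pow]; norm_num
  · rintro ⟨h1, h2⟩
    constructor
    · exact nonneg_of_mul_nonneg_right h1 hp
    · have : x = (1 / 2) ^ n * (2 ^ n * x) := by
        rw [← mul_assoc, ← mul_pow]; norm_num
      rw [this]
      have hq : (0 : ℝ) < (1 / 2) ^ n := by positivity
      calc (1 / 2 : ℝ) ^ n * (2 ^ n * x) < (1 / 2) ^ n * 1 := by gcongr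
        _ = _ := mul_one _

theorem AR_floor (n : ℕ) : AR n = (fun x : ℝ => ⌊(2 : ℝ) ^ n * x⌋) ⁻¹' {(2 : ℤ) ^ n - 1} := by
  ext x
  simp only [AR, mem_Ico, mem_preimage, mem_singleton_iff, Int.floor_eq_iff]
  have hp : (0 : ℝ) < 2 ^ n := by positivity
  have hq : (0 : ℝ) < (1 / 2) ^ n := by positivity
  have hpq : (2 : ℝ) ^ n * (1 / 2) ^ n = 1 := by rw [← mul_pow]; norm_num
  push_cast
  constructor
  · rintro ⟨h1, h2⟩
    constructor
    · have := mul_le_mul_of_nonneg_left h1 hp.le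
      rw [mul_sub, hpq] at this
      linarith
    · have := mul_lt_mul_of_pos_left h2 hp
      linarith
  · rintro ⟨h1, h2⟩
    constructor
    · have := mul_le_mul_of_nonneg_left h1 hq.le
      have e1 : (1 / 2 : ℝ) ^ n * (2 ^ n - 1) = 1 - (1 / 2) ^ n := by linear_combination hpq
      have e2 : (1 / 2 : ℝ) ^ n * (2 ^ n * x) = x := by linear_combination x * hpq
      rw [e1, e2] at this
      exact this
    · have := mul_lt_mul_of_pos_left h2 hq
      have e2 : (1 / 2 : ℝ) ^ n * (2 ^ n * x) = x := by linear_combination x * hpq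
      have e3 : (1 / 2 : ℝ) ^ n * (2 ^ n - 1 + 1) = 1 := by linear_combination hpq
      rw [e2, e3] at this
      exact this

theorem AL_dy (n : ℕ) : MeasurableSet[dyadicFil n] (AL n) := by
  rw [AL_floor]; exact ⟨{0}, trivial, rfl⟩

theorem AR_dy (n : ℕ) : MeasurableSet[dyadicFil n] (AR n) := by
  rw [AR_floor]; exact ⟨{(2 : ℤ) ^ n - 1}, trivial, rfl⟩

theorem vol_AL (n : ℕ) : volume (AL n) = ENNReal.ofReal ((1 / 2 : ℝ) ^ n) := by
  rw [AL, Real.volume_Ico, sub_zero]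

theorem vol_AR (n : ℕ) : volume (AR n) = ENNReal.ofReal ((1 / 2 : ℝ) ^ n) := by
  rw [AR, Real.volume_Ico]; congr 1; ring

theorem leb_AL (n : ℕ) : leb01 (AL n) = ENNReal.ofReal ((1 / 2 : ℝ) ^ n) := by
  rw [leb01, Measure.restrict_apply (AL_meas n), inter_eq_left.mpr (AL_sub n), vol_AL]

theorem leb_AR (n : ℕ) : leb01 (AR n) = ENNReal.ofReal ((1 / 2 : ℝ) ^ n) := by
  rw [leb01, Measure.restrict_apply (AR_meas n), inter_eq_left.mpr (AR_sub n), vol_AR]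

/-- the test function -/
noncomputable def tf (n : ℕ) : ℝ → ℂ :=
  fun x => (AL n).indicator (fun _ => (1 : ℂ)) x - (AR n).indicator (fun _ => (1 : ℂ)) x

theorem ind_int (U : Set ℝ) (hU : MeasurableSet U) (ν : Measure ℝ) [IsFiniteMeasure ν] :
    Integrable (U.indicator (fun _ => (1 : ℂ))) ν :=
  (integrable_const (1 : ℂ)).indicator hU

theorem tf_meas (n : ℕ) : Measurable (tf n) :=
  (measurable_const.indicator (AL_meas n)).sub (measurable_const.indicator (AR_meas n))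

theorem tf_int (n : ℕ) : Integrable (tf n) leb01 :=
  (ind_int _ (AL_meas n) _).sub (ind_int _ (AR_meas n) _)

theorem fl0 (x : ℝ) (hx : x ∈ Ico (0 : ℝ) 1) : ⌊(2 : ℝ) ^ 0 * x⌋ = 0 := by
  rw [pow_zero, one_mul, Int.floor_eq_zero_iff]; exact hx

theorem fl1L (n : ℕ) (hn : 1 ≤ n) (x : ℝ) (hx : x ∈ AL n) : ⌊(2 : ℝ) ^ 1 * x⌋ = 0 := by
  rw [Int.floor_eq_zero_iff]
  have h : (1 / 2 : ℝ) ^ n ≤ (1 / 2) ^ 1 := pow_le_pow_of_le_one (by norm_num) (by norm_num) hn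
  have h1 := hx.1
  have h2 := hx.2
  constructor
  · linarith
  · linarith

theorem fl1R (n : ℕ) (hn : 1 ≤ n) (x : ℝ) (hx : x ∈ AR n) : ⌊(2 : ℝ) ^ 1 * x⌋ = 1 := by
  rw [Int.floor_eq_iff]
  have h : (1 / 2 : ℝ) ^ n ≤ (1 / 2) ^ 1 := pow_le_pow_of_le_one (by norm_num) (by norm_num) hn
  have h1 := hx.1
  have h2 := hx.2
  constructor
  · push_cast; linarith
  · push_cast; linarith

theorem E0_tf (n : ℕ) : leb01[tf n | dyadicFil 0] =ᵐ[leb01] 0 := by
  classical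
  refine (ae_eq_condExp_of_forall_setIntegral_eq (dyadicFil_le 0) (tf_int n)
    (fun s _ _ => integrableOn_zero) ?_ ?_).symm
  · rintro s ⟨T, -, rfl⟩ _
    have h1 : ∫ x in (fun x : ℝ => ⌊(2 : ℝ) ^ 0 * x⌋) ⁻¹' T, tf n x ∂leb01 =
      (∫ x in (fun x : ℝ => ⌊(2 : ℝ) ^ 0 * x⌋) ⁻¹' T, (AL n).indicator (fun _ => (1 : ℂ)) x ∂leb01) -
      ∫ x in (fun x : ℝ => ⌊(2 : ℝ) ^ 0 * x⌋) ⁻¹' T, (AR n).indicator (fun _ => (1 : ℂ)) x ∂leb01 :=
      integral_sub (ind_int _ (AL_meas n) _) (ind_int _ (AR_meas n) _)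
    rw [h1, setInt_ind 0 _ (AL_meas n) (AL_sub n) 0 (fun x hx => fl0 x (AL_sub n hx)) T,
      setInt_ind 0 _ (AR_meas n) (AR_sub n) 0 (fun x hx => fl0 x (AR_sub n hx)) T, vol_AL, vol_AR]
    simp
  · exact aestronglyMeasurable_zero

/-- conditional expectation of the test function at level one -/
noncomputable def tf1 (n : ℕ) : ℝ → ℂ :=
  fun x => (2 * (1 / 2 : ℂ) ^ n) * ((AL 1).indicator (fun _ => (1 : ℂ)) x -
    (AR 1).indicator (fun _ => (1 : ℂ)) x)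

theorem E1_tf (n : ℕ) (hn : 1 ≤ n) : leb01[tf n | dyadicFil 1] =ᵐ[leb01] tf1 n := by
  classical
  have hI : ∀ ν : Measure ℝ, IsFiniteMeasure ν → Integrable (tf1 n) ν := by
    intro ν _
    exact ((ind_int _ (AL_meas 1) _).sub (ind_int _ (AR_meas 1) _)).const_mul _
  refine (ae_eq_condExp_of_forall_setIntegral_eq (dyadicFil_le 1) (tf_int n)
    (fun s _ _ => (hI leb01 inferInstance).integrableOn) ?_ ?_).symm
  · rintro s ⟨T, -, rfl⟩ _
    have h1 : ∫ x in (fun x : ℝ => ⌊(2 : ℝ) ^ 1 * x⌋) ⁻¹' T, tf n x ∂leb01 =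
      (∫ x in (fun x : ℝ => ⌊(2 : ℝ) ^ 1 * x⌋) ⁻¹' T, (AL n).indicator (fun _ => (1 : ℂ)) x ∂leb01) -
      ∫ x in (fun x : ℝ => ⌊(2 : ℝ) ^ 1 * x⌋) ⁻¹' T, (AR n).indicator (fun _ => (1 : ℂ)) x ∂leb01 :=
      integral_sub (ind_int _ (AL_meas n) _) (ind_int _ (AR_meas n) _)
    have h2 : ∫ x in (fun x : ℝ => ⌊(2 : ℝ) ^ 1 * x⌋) ⁻¹' T, tf1 n x ∂leb01 =
      (2 * (1 / 2 : ℂ) ^ n) *
      ((∫ x in (fun x : ℝ => ⌊(2 : ℝ) ^ 1 * x⌋) ⁻¹' T, (AL 1).indicator (fun _ => (1 : ℂ)) x ∂leb01) -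
      ∫ x in (fun x : ℝ => ⌊(2 : ℝ) ^ 1 * x⌋) ⁻¹' T, (AR 1).indicator (fun _ => (1 : ℂ)) x ∂leb01) := by
      rw [← integral_sub (ind_int _ (AL_meas 1) _) (ind_int _ (AR_meas 1) _), ← integral_const_mul]
      rfl
    rw [h1, h2, setInt_ind 1 _ (AL_meas n) (AL_sub n) 0 (fun x hx => fl1L n hn x hx) T,
      setInt_ind 1 _ (AR_meas n) (AR_sub n) 1 (fun x hx => fl1R n hn x hx) T,
      setInt_ind 1 _ (AL_meas 1) (AL_sub 1) 0 (fun x hx => fl1L 1 le_rfl x hx) T,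
      setInt_ind 1 _ (AR_meas 1) (AR_sub 1) 1 (fun x hx => fl1R 1 le_rfl x hx) T,
      vol_AL, vol_AR, vol_AL, vol_AR]
    have e1 : (ENNReal.ofReal ((1 / 2 : ℝ) ^ n)).toReal = (1 / 2) ^ n :=
      ENNReal.toReal_ofReal (by positivity)
    have e2 : (ENNReal.ofReal ((1 / 2 : ℝ) ^ 1)).toReal = (1 / 2) ^ 1 :=
      ENNReal.toReal_ofReal (by positivity)
    rw [e1, e2]
    push_cast
    split_ifs <;> ring
  · refine StronglyMeasurable.aestronglyMeasurable ?_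
    refine StronglyMeasurable.const_mul ?_ _
    exact (stronglyMeasurable_const.indicator (AL_dy 1)).sub
      (stronglyMeasurable_const.indicator (AR_dy 1))

theorem tf1_norm (n : ℕ) (x : ℝ) (hx : x ∈ Ico (0 : ℝ) 1) :
    ‖tf1 n x‖ₑ = ENNReal.ofReal (2 * (1 / 2) ^ n) := by
  have h : ‖tf1 n x‖ = 2 * (1 / 2) ^ n := by
    unfold tf1
    by_cases h1 : x < 1 / 2
    · have hL : x ∈ AL 1 := ⟨hx.1, by rw [pow_one]; exact h1⟩
      have hR : x ∉ AR 1 := by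
        intro h2
        have := h2.1
        rw [pow_one] at this
        linarith
      rw [indicator_of_mem hL, indicator_of_notMem hR]
      simp
    · have hR : x ∈ AR 1 := ⟨by rw [pow_one]; linarith, hx.2⟩
      have hL : x ∉ AL 1 := by
        intro h2
        have := h2.2
        rw [pow_one] at this
        linarith
      rw [indicator_of_mem hR, indicator_of_notMem hL]
      simp
  rw [← ofReal_norm, h]

theorem hp_lower (n : ℕ) (hn : 1 ≤ n) (p : ℝ) (hp : 0 < p) :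
    ENNReal.ofReal (2 * (1 / 2) ^ n) ≤ hpNorm leb01 dyadicFil p (tf n) := by
  have h0 := E0_tf n
  have h1 := E1_tf n hn
  have hmem : ∀ᵐ x ∂leb01, x ∈ Ico (0 : ℝ) 1 := ae_restrict_mem measurableSet_Ico
  have key : ∀ᵐ x ∂leb01, ENNReal.ofReal (2 * (1 / 2) ^ n) ≤ sqFun leb01 dyadicFil (tf n) x := by
    filter_upwards [h0, h1, hmem] with x e0 e1 hx
    have h2 : mdiff leb01 dyadicFil (tf n) 1 x = tf1 n x := by
      simp only [mdiff, e0, e1, Pi.zero_apply, sub_zero]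
    unfold sqFun
    calc ENNReal.ofReal (2 * (1 / 2) ^ n)
        = (‖mdiff leb01 dyadicFil (tf n) 1 x‖ₑ ^ 2) ^ (1 / 2 : ℝ) := by
          rw [h2, tf1_norm n x hx, ← ENNReal.rpow_natCast, ← ENNReal.rpow_mul]
          norm_num
      _ ≤ _ := by
          refine ENNReal.rpow_le_rpow ?_ (by norm_num)
          exact ENNReal.le_tsum 1
  unfold hpNorm
  calc ENNReal.ofReal (2 * (1 / 2) ^ n)
      = (∫⁻ x, (ENNReal.ofReal (2 * (1 / 2) ^ n)) ^ p ∂leb01) ^ (1 / p) := by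
        rw [lintegral_const, measure_univ, mul_one, ← ENNReal.rpow_mul, mul_one_div_cancel hp.ne',
          ENNReal.rpow_one]
    _ ≤ _ := by
        refine ENNReal.rpow_le_rpow ?_ (by positivity)
        refine lintegral_mono_ae ?_
        filter_upwards [key] with x hx
        exact ENNReal.rpow_le_rpow hx hp.le

end Pool.Agent.LibFbca
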