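import Mathlib
import Pool.Agent.Lib_MP_fbca0c_an.Test

set_option autoImplicit false

namespace Pool.Agent.LibFbca

open MeasureTheory Filter Set
open scoped ENNReal Topology

/-- coefficient -/
noncomputable def cf (n : ℕ) (p : ℝ) : ℝ := (n + 1) * ((1 / 2 : ℝ) ^ n) ^ (1 / p)

theorem cf_pos (n : ℕ) (p : ℝ) : 0 < cf n p := by unfold cf; positivity

theorem subatom_aux (n : ℕ) (p q : ℝ) (hq : 1 < q) (A : Set ℝ) (hA : MeasurableSet A)
    (hAd : MeasurableSet[dyadicFil n] A) (hμ : leb01 A = ENNReal.ofReal ((1 / 2 : ℝ) ^ n))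
    (s : ℂ) (hs : ‖s‖ = (cf n p)⁻¹) :
    IsSubatom leb01 dyadicFil p q 0 (A.indicator (fun _ => s)) := by
  have hδ : (0 : ℝ) < (1 / 2 : ℝ) ^ n := by positivity
  refine ⟨(measurable_const.indicator hA).aestronglyMeasurable, n, Nat.zero_le _, A, hAd,
    Eventually.of_forall fun x hx => indicator_of_notMem hx _, ?_⟩
  have hq0 : (0 : ℝ) < q := by linarith
  have hq1 : q - 1 ≠ 0 := by linarith
  rw [eLpNorm_indicator_const hA (by simpa using hq0) ENNReal.ofReal_ne_top, hμ,
    ENNReal.toReal_ofReal hq0.le, ENNReal.ofReal_rpow_of_pos hδ, ENNReal.ofReal_rpow_of_pos hδ,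
    ← ofReal_norm, hs, Nat.sub_zero, ← ENNReal.ofReal_natCast,
    ← ENNReal.ofReal_inv_of_pos (by positivity),
    ← ENNReal.ofReal_mul (inv_nonneg.mpr (cf_pos n p).le),
    ← ENNReal.ofReal_mul (by positivity)]
  refine ENNReal.ofReal_le_ofReal (le_of_eq ?_)
  have h1 : (1 : ℝ) - 1 / p - 1 / (q / (q - 1)) = 1 / q - 1 / p := by
    field_simp
    ring
  rw [h1, Real.rpow_sub hδ]
  unfold cf
  push_cast
  have h2 : (0 : ℝ) < ((1 / 2 : ℝ) ^ n) ^ (1 / p) := by positivity
  field_simp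

theorem tf_rep (n : ℕ) (p q : ℝ) (hq : 1 < q) :
    IsBlockRep leb01 dyadicFil p q (tf n) 0 (fun j => if j < 2 then (cf n p : ℂ) else 0)
      (fun j => if j = 0 then (AL n).indicator (fun _ => ((cf n p)⁻¹ : ℂ)) else
        if j = 1 then (AR n).indicator (fun _ => (-(cf n p)⁻¹ : ℂ)) else fun _ => 0) := by
  have hc := cf_pos n p
  refine ⟨E0_tf n, ?_, ?_⟩
  · intro j
    beta_reduce
    by_cases h0 : j = 0
    · subst h0
      rw [if_pos rfl]
      refine subatom_aux n p q hq _ (AL_meas n) (AL_dy n) (leb_AL n) _ ?_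
      rw [norm_inv, Complex.norm_real, Real.norm_of_nonneg hc.le]
    by_cases h1 : j = 1
    · subst h1
      rw [if_neg (by decide), if_pos rfl]
      refine subatom_aux n p q hq _ (AR_meas n) (AR_dy n) (leb_AR n) _ ?_
      rw [norm_neg, Complex.norm_real, Real.norm_of_nonneg (inv_nonneg.mpr hc.le)]
    rw [if_neg h0, if_neg h1]
    refine ⟨aestronglyMeasurable_const, 0, le_rfl, ∅, @MeasurableSet.empty _ (dyadicFil 0),
      Eventually.of_forall fun _ _ => rfl, ?_⟩
    simp
  · refine tendsto_const_nhds.congr' ?_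
    filter_upwards [eventually_ge_atTop 2] with N hN
    have h : (fun x => tf n x - ∑ i ∈ Finset.range N, (if i < 2 then (cf n p : ℂ) else 0) *
        (if i = 0 then (AL n).indicator (fun _ => ((cf n p)⁻¹ : ℂ)) else
        if i = 1 then (AR n).indicator (fun _ => (-(cf n p)⁻¹ : ℂ)) else fun _ => 0) x) =
        fun _ => 0 := by
      funext x
      have hsub : Finset.range 2 ⊆ Finset.range N := Finset.range_mono hN
      rw [← Finset.sum_subset hsub]
      · rw [Finset.sum_range_succ, Finset.sum_range_one]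
        have hcc : (cf n p : ℂ) ≠ 0 := by exact_mod_cast hc.ne'
        unfold tf
        by_cases hL : x ∈ AL n <;> by_cases hR : x ∈ AR n <;> simp [hL, hR, hcc]
      · intro i _ hi
        have : ¬ i < 2 := by simpa using hi
        simp [this]
    rw [h]
    simp

theorem tf_block (n : ℕ) (p q : ℝ) (hq : 1 < q) : IsBlock leb01 dyadicFil p q (tf n) :=
  ⟨tf_int n, Or.inr ⟨_, _, _, tf_rep n p q hq⟩⟩

theorem tf_size (n : ℕ) (p q r : ℝ) (hq : 1 < q) (hr : 0 < r) :
    blockSize leb01 dyadicFil p q r (tf n) ≤ ENNReal.ofReal (2 ^ (1 / r) * cf n p) := by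
  unfold blockSize
  split_ifs with h
  · have h1 : tf n =ᵐ[leb01] 0 := by
      have h2 := condExp_of_aestronglyMeasurable' (dyadicFil_le 0) h (tf_int n)
      exact h2.symm.trans (E0_tf n)
    rw [eLpNorm_congr_ae h1]
    simp
  · refine (iInf_le_of_le 0 (iInf_le_of_le _ (iInf_le_of_le _ (iInf_le_of_le
      (tf_rep n p q hq) ?_))))
    rw [tsum_eq_sum (s := Finset.range 2)]
    · rw [Finset.sum_range_succ, Finset.sum_range_one]
      have hc := cf_pos n p
      have e : ‖((cf n p : ℝ) : ℂ)‖ₑ = ENNReal.ofReal (cf n p) := by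
        rw [← ofReal_norm, Complex.norm_real, Real.norm_of_nonneg hc.le]
      simp only [Nat.zero_lt_two, if_true, Nat.one_lt_two]
      rw [e, ENNReal.ofReal_rpow_of_pos hc, ← ENNReal.ofReal_add (by positivity) (by positivity),
        ENNReal.ofReal_rpow_of_pos (by positivity)]
      refine ENNReal.ofReal_le_ofReal (le_of_eq ?_)
      rw [← two_mul, Real.mul_rpow (by norm_num) (by positivity), ← Real.rpow_mul hc.le,
        mul_one_div_cancel hr.ne', Real.rpow_one]
    · intro j hj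
      have : ¬ j < 2 := by simpa using hj
      rw [if_neg this, enorm_zero, ENNReal.zero_rpow_of_pos hr]

theorem tf_atb (n : ℕ) (p q r : ℝ) (hp : 0 < p) (hq : 1 < q) (hr : 0 < r) :
    atbNorm leb01 dyadicFil p q r (tf n) ≤ ENNReal.ofReal (2 ^ (1 / r) * cf n p) := by
  refine le_trans ?_ (tf_size n p q r hq hr)
  unfold atbNorm
  refine iInf_le_of_le (fun i => if i = 0 then tf n else fun _ => 0) (iInf_le_of_le ⟨?_, ?_⟩ ?_)
  · intro i
    beta_reduce
    by_cases h0 : i = 0
    · rw [if_pos h0]; exact tf_block n p q hq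
    · rw [if_neg h0]
      exact ⟨integrable_zero _ _ _, Or.inl aestronglyMeasurable_const⟩
  · refine tendsto_const_nhds.congr' ?_
    filter_upwards [eventually_ge_atTop 1] with N hN
    have h : (fun x => tf n x - ∑ i ∈ Finset.range N, (if i = 0 then tf n else fun _ => 0) x) =
        fun _ => 0 := by
      funext x
      have hsub : Finset.range 1 ⊆ Finset.range N := Finset.range_mono hN
      rw [← Finset.sum_subset hsub]
      · simp
      · intro i _ hi
        have : i ≠ 0 := by simpa using hi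
        simp [this]
    rw [h]
    simp
  · beta_reduce
    rw [tsum_eq_single 0]
    · rw [if_pos rfl, ← ENNReal.rpow_mul, mul_one_div_cancel hp.ne', ENNReal.rpow_one]
    · intro i hi
      rw [if_neg hi]
      have hm : AEStronglyMeasurable[dyadicFil 0] (fun _ : ℝ => (0 : ℂ)) leb01 :=
        aestronglyMeasurable_const
      have : blockSize leb01 dyadicFil p q r (fun _ => 0) = 0 := by
        unfold blockSize
        rw [if_pos hm]
        simp
      rw [this, ENNReal.zero_rpow_of_pos hp]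

theorem growth (p r : ℝ) (hp : 0 < p) (hp1 : p < 1) (C : ℝ) :
    ∃ n : ℕ, 1 ≤ n ∧ C * (2 ^ (1 / r) * cf n p) < 2 * (1 / 2) ^ n := by
  -- it suffices that `C 2^{1/r} (n+1) (1/2)^{n(1/p-1)} < 2`
  have hb : (1 / 2 : ℝ) ^ (1 / p - 1) < 1 := by
    apply Real.rpow_lt_one (by norm_num) (by norm_num)
    have : 1 < 1 / p := by rw [lt_div_iff₀ hp]; linarith
    linarith
  have hb0 : (0 : ℝ) < (1 / 2 : ℝ) ^ (1 / p - 1) := by positivity
  set b := (1 / 2 : ℝ) ^ (1 / p - 1) with hbdef
  have hlim : Tendsto (fun n : ℕ => C * 2 ^ (1 / r) * (((n : ℝ) + 1) * b ^ n)) atTop (𝓝 0) := by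
    have h1 : Tendsto (fun n : ℕ => ((n : ℝ)) * b ^ n) atTop (𝓝 0) :=
      tendsto_self_mul_const_pow_of_lt_one hb0.le hb
    have h2 : Tendsto (fun n : ℕ => b ^ n) atTop (𝓝 0) :=
      tendsto_pow_atTop_nhds_zero_of_lt_one hb0.le hb
    have h3 := (h1.add h2).const_mul (C * 2 ^ (1 / r))
    rw [add_zero, mul_zero] at h3
    refine h3.congr fun n => ?_
    ring
  have hev := (hlim.eventually (gt_mem_nhds (show (0 : ℝ) < 2 by norm_num))).and
    (eventually_ge_atTop 1)
  obtain ⟨n, hn, hn1⟩ := hev.exists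
  refine ⟨n, hn1, ?_⟩
  have hδ : (0 : ℝ) < (1 / 2 : ℝ) ^ n := by positivity
  have e : ((1 / 2 : ℝ) ^ n) ^ (1 / p) = (1 / 2) ^ n * b ^ n := by
    rw [hbdef, ← Real.rpow_natCast, ← Real.rpow_natCast, ← Real.rpow_mul (by norm_num),
      ← Real.rpow_mul (by norm_num), ← Real.rpow_add (by norm_num)]
    congr 1
    ring
  unfold cf
  rw [e]
  calc C * (2 ^ (1 / r) * ((n + 1) * ((1 / 2) ^ n * b ^ n)))
      = (C * 2 ^ (1 / r) * (((n : ℝ) + 1) * b ^ n)) * (1 / 2) ^ n := by ring
    _ < 2 * (1 / 2) ^ n := by gcongr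

theorem tf_memLp (n : ℕ) : MemLp (tf n) ∞ leb01 := by
  refine memLp_top_of_bound (tf_meas n).aestronglyMeasurable 2 (Eventually.of_forall fun x => ?_)
  unfold tf
  refine (norm_sub_le _ _).trans ?_
  have h : ∀ A : Set ℝ, ‖A.indicator (fun _ => (1 : ℂ)) x‖ ≤ 1 := by
    intro A
    by_cases hx : x ∈ A <;> simp [hx]
  linarith [h (AL n), h (AR n)]

end Pool.Agent.LibFbca
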